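import Mathlib
import Pool.Agent.K9h52.CS.Main

/-!
# MP_c2d7b4_nt: multiple zeta values with a long common last part have no relations of small height

Let `U` be a finite set of words in positive integers, each empty or with first letter at least two (the first letter
belongs to the largest summation variable). For a word `p` consider the numbers `ζ(u p)`, `u ∈ U`: the letters of `p`
belong to the smallest summation variables. If `U` and `p` consist of words in the letters `2`, `3` these are Hoffman
elements with the common last part `p`, and Hoffman's conjecture says that they satisfy no linear relation at all.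

(1) The `ζ(u p)` satisfy no relation with integer coefficients, not all zero, of absolute value at most
`κ · length p`, where `κ > 0` depends only on `U`; and the value of such a linear form is at least
`κ ζ(p_1 + M, p_2, ..., p_m)` in absolute value, `M = M(U)`.
(2) A fixed linear form with real coefficients, not all zero, does not vanish at `(ζ(u p))_{u ∈ U}` for all `p` of
length at least `L`, where `L` depends only on `U` and the coefficients.

The proof is elementary: `ζ(u p) = ∑_j T_u(j) W_p(j)` with the tails `T_u(j) = ∑_{k_1 > ... > k_r > j} ∏ k_i ^ (-u_i)`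
and weights `W_p(j) ≥ 0` which vanish for `j < length p`. The tails have asymptotic expansions in `1 / j` with rational
coefficients, and they are linearly independent modulo functions which decrease faster than every power of `j`
(difference algebra). So a linear combination of the tails has constant sign and is at least a fixed power of `1 / j` for
all `j` larger than a constant times the height.
-/

set_option autoImplicit false

namespace Pool.Agent.Results.MP_c2d7b4_nt.CommonSuffix

/-- the multiple zeta value of the list `l`, the first entry belongs to the largest summation variable, in the words of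
`S18393` -/
noncomputable def mzv (l : List ℕ) : ℝ :=
  ∑' m : {m : Fin l.length → ℕ // StrictAnti m ∧ ∀ i, 0 < m i}, ∏ i, ((m.1 i : ℝ) ^ (l.get i))⁻¹

/-- the list of natural numbers of a list of positive integers -/
def toNat (u : List ℕ+) : List ℕ := List.map (fun x : ℕ+ => (x : ℕ)) u

lemma mzv_eq {l : List ℕ} (hl : Pool.Agent.H447R2.MZ.Adm l) : mzv l = Pool.Agent.H447R2.MZ.val l := by
  have h1 := Pool.Agent.H447R2.MZ.hasSum_val l.length l.get (by rw [List.ofFn_get]; exact hl)
  rw [List.ofFn_get] at h1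
  exact h1.tsum_eq

lemma toNat_eq (u : List ℕ+) : toNat u = Pool.Agent.K9h52.CS.toN u := rfl

lemma toNat_pos (u : List ℕ+) : ∀ x ∈ toNat u, 1 ≤ x := by
  intro x hx
  rw [toNat, List.mem_map] at hx
  obtain ⟨y, _, rfl⟩ := hx
  exact y.pos

lemma adm_of (u : List ℕ+) (h : ∀ a v, u = a :: v → 2 ≤ (a : ℕ)) : Pool.Agent.H447R2.MZ.Adm (toNat u) := by
  refine ⟨toNat_pos u, fun x t hx => ?_⟩
  cases u with
  | nil => exact absurd hx (by simp [toNat])
  | cons a v =>
    have h1 : toNat (a :: v) = (a : ℕ) :: toNat v := rfl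
    rw [h1] at hx
    rw [← (List.cons.inj hx).1]
    exact h a v rfl

lemma adm_app {u : List ℕ+} (h : ∀ a v, u = a :: v → 2 ≤ (a : ℕ)) {s : ℕ+} (hs : u = [] → 2 ≤ (s : ℕ))
    (q : List ℕ+) : Pool.Agent.H447R2.MZ.Adm (toNat (u ++ s :: q)) := by
  refine adm_of _ fun a v hav => ?_
  cases u with
  | nil =>
    rw [List.nil_append] at hav
    rw [← (List.cons.inj hav).1]
    exact hs rfl
  | cons b w =>
    rw [List.cons_append] at hav
    rw [← (List.cons.inj hav).1]
    exact h b w rfl

lemma toNat_app (u : List ℕ+) (s : ℕ+) (q : List ℕ+) : toNat (u ++ s :: q) = toNat u ++ (s : ℕ) :: toNat q := by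
  rw [toNat, List.map_append, List.map_cons]
  rfl

/-- **Theorem.** Let `U` be a finite set of words in positive integers, each empty or with first letter at least two.
(1) There are `κ > 0` and `M` such that for all words `p = s q` in positive integers (with `s ≥ 2` if the empty word is
in `U`) and all integers `c_u`, `u ∈ U`, not all zero, of absolute value at most `κ · length p`:
`|∑ c_u ζ(u p)| ≥ κ ζ(s + M, q) > 0`. In particular the numbers `ζ(u p)`, `u ∈ U`, satisfy no nontrivial linear relation
with integer coefficients of absolute value at most `κ · length p`.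
(2) For all real `c_u`, `u ∈ U`, not all zero, there is `L` such that `∑ c_u ζ(u p) ≠ 0` for all such `p` of length at
least `L`. -/
theorem result (U : Finset (List ℕ+)) (hU : ∀ u ∈ U, ∀ (a : ℕ+) (v : List ℕ+), u = a :: v → 2 ≤ (a : ℕ)) :
    (∃ κ : ℝ, 0 < κ ∧ ∃ M : ℕ, ∀ (s : ℕ+) (q : List ℕ+), (([] : List ℕ+) ∈ U → 2 ≤ (s : ℕ)) →
      ∀ c : List ℕ+ → ℤ, (∀ u ∈ U, |(c u : ℝ)| ≤ κ * (s :: q).length) → (∃ u ∈ U, c u ≠ 0) →
        0 < mzv (((s : ℕ) + M) :: toNat q) ∧
          κ * mzv (((s : ℕ) + M) :: toNat q) ≤ |∑ u ∈ U, (c u : ℝ) * mzv (toNat (u ++ s :: q))|) ∧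
    (∀ c : List ℕ+ → ℝ, (∃ u ∈ U, c u ≠ 0) → ∃ L : ℕ, ∀ (s : ℕ+) (q : List ℕ+),
      (([] : List ℕ+) ∈ U → 2 ≤ (s : ℕ)) → L ≤ (s :: q).length →
        ∑ u ∈ U, c u * mzv (toNat (u ++ s :: q)) ≠ 0) := by
  have hU' : ∀ u ∈ U, Pool.Agent.H447R2.MZ.Adm (Pool.Agent.K9h52.CS.toN u) := fun u hu => adm_of u (hU u hu)
  have happ : ∀ (s : ℕ+) (q : List ℕ+), (([] : List ℕ+) ∈ U → 2 ≤ (s : ℕ)) → ∀ u ∈ U,
      Pool.Agent.H447R2.MZ.Adm (toNat (u ++ s :: q)) := fun s q hs u hu =>
    adm_app (hU u hu) (fun h => hs (h ▸ hu)) q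
  have hsum : ∀ (c : List ℕ+ → ℝ) (s : ℕ+) (q : List ℕ+), (([] : List ℕ+) ∈ U → 2 ≤ (s : ℕ)) →
      ∑ u ∈ U, c u * mzv (toNat (u ++ s :: q)) =
        ∑ u ∈ U, c u * Pool.Agent.H447R2.MZ.val (Pool.Agent.K9h52.CS.toN u ++ (s : ℕ) :: toNat q) := by
    intro c s q hs
    refine Finset.sum_congr rfl fun u hu => ?_
    rw [mzv_eq (happ s q hs u hu), toNat_app]
    rfl
  have hadm : ∀ (s : ℕ+) (q : List ℕ+), (([] : List ℕ+) ∈ U → 2 ≤ (s : ℕ)) → ∀ u ∈ U,
      Pool.Agent.H447R2.MZ.Adm (Pool.Agent.K9h52.CS.toN u ++ (s : ℕ) :: toNat q) := by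
    intro s q hs u hu
    have := happ s q hs u hu
    rwa [toNat_app] at this
  constructor
  · obtain ⟨κ, hκ, K, hK, h⟩ := Pool.Agent.K9h52.CS.main_int U hU'
    refine ⟨κ, hκ, K, fun s q hs c hc hne => ?_⟩
    have hadmK := Pool.Agent.K9h52.CS.adm_K (s := (s : ℕ)) (K := K) (q := toNat q) s.pos hK (toNat_pos q)
    rw [mzv_eq hadmK]
    refine ⟨lt_of_lt_of_le (Pool.Agent.K9h52.CS.H_pos _) (Pool.Agent.H447R2.MZ.H_le_val _ hadmK _), ?_⟩
    rw [hsum (fun u => (c u : ℝ)) s q hs]
    refine h (s : ℕ) (toNat q) s.pos (toNat_pos q) (hadm s q hs) c (fun u hu => ?_) hne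
    have h1 := hc u hu
    have h2 : (toNat q).length = q.length := by rw [toNat, List.length_map]
    rw [h2]
    rw [List.length_cons] at h1
    push_cast at h1
    exact h1
  · intro c hc
    obtain ⟨L, hL⟩ := Pool.Agent.K9h52.CS.main_real U hU' c hc
    refine ⟨L + 1, fun s q hs hlen => ?_⟩
    rw [hsum c s q hs]
    refine hL (s : ℕ) (toNat q) s.pos (toNat_pos q) (hadm s q hs) ?_
    rw [toNat, List.length_map]
    rw [List.length_cons] at hlen
    omega

end Pool.Agent.Results.MP_c2d7b4_nt.CommonSuffix
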