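import Mathlib
import Pool.Agent.K9h92.MP.Lim
import Pool.Agent.K9h92.MP.Star
import Pool.Agent.K9h92.MP.Fin

/-!
# MP_c2d7b4_nt: multiple zeta values with long common first and last parts: a first order expansion in the middle part

Fix `r ≥ 2` and `m > r` and consider the words `u` of length `r` and weight `m` in positive integers; for words in the
letters `2`, `3` this means a fixed number of letters `2` and a fixed number of letters `3`. For words `p` (first letter
at least two, the largest summation variables) and `q` (the smallest summation variables) consider `ζ(p u q)` as a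
function of the middle part `u`. Let `a` be the weight of `p` minus the length of `p` (at least the length of `p` for
words in the letters `2`, `3`), `b` the length of `q`, `u_0 = (m - r + 1, 1, ..., 1)`, `u_1 = (m - r, 2, 1, ..., 1)`,
`Z_0 = ζ(p u_0 q)`, `Δ = ζ(p u_1 q) - ζ(p u_0 q)` and `n(u) = ∑ i (u_i - 1)` (`i = 0, ..., r - 1`).

(1) `Z_0 > 0`, `0 < Δ ≤ K (1 / a + 1 / b) Z_0` and `|ζ(p u q) - Z_0 - n(u) Δ| ≤ K (1 / a + 1 / b) Δ`, `K = K(r, m)`.
(2) If integers `c_u` have absolute value at most `κ min(a, b)`, `κ = κ(r, m) > 0`, and `∑ c_u ≠ 0` or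
`∑ c_u ∑ i u_i ≠ 0`, then `∑ c_u ζ(p u q) ≠ 0`, with a lower bound.

The proof is elementary. Fix `N` and let `f(j) = ∑ ∏ k_i ^ (-p_i)` over `N ≥ k_1 > ... > k_a > j`. Such sums decrease at
least like `∏ i / (i + a)`, so the next variable is on average at most `(1 + 2 / a + 2 / j) j`. Moving a unit of exponent
from a variable `j` to the preceding variable `i > j` changes the sum by a factor between `1` and `1 + 2 / a + 2 / j`, and
the exact difference is a sum of the same kind with a further weakly ordered variable of exponent zero (the gap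
`i - j` counts its values). Sums of this kind are again equal up to such factors for all middle parts of the same length
and weight and all positions of the additional variable.
-/

set_option autoImplicit false

namespace Pool.Agent.Results.MP_c2d7b4_nt.MiddlePart

open Pool.Agent.K9h92.MP Pool.Agent.K9h92.MP2

/-- the multiple zeta value of the list `l`, the first entry belongs to the largest summation variable, in the words of
`S18393` -/
noncomputable def mzv (l : List ℕ) : ℝ :=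
  ∑' m : {m : Fin l.length → ℕ // StrictAnti m ∧ ∀ i, 0 < m i}, ∏ i, ((m.1 i : ℝ) ^ (l.get i))⁻¹

/-- the multiple zeta value of the word `p u q` -/
noncomputable def Z (p u q : List ℕ) : ℝ := mzv (p ++ u ++ q)

/-- the word `(m - r + 1, 1, ..., 1)` of length `r` and weight `m` -/
def u0 (r m : ℕ) : List ℕ := (m - r + 1) :: List.replicate (r - 1) 1

/-- the word `(m - r, 2, 1, ..., 1)` of length `r` and weight `m` -/
def u1 (r m : ℕ) : List ℕ := (m - r) :: 2 :: List.replicate (r - 2) 1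

/-- the moment `∑ i * u_i`, `i = 0, ..., r - 1` -/
def mom (u : List ℕ) : ℕ := ∑ i : Fin u.length, (i : ℕ) * u.get i

/-- the moment `∑ i * (u_i - 1)`, `i = 0, ..., r - 1` -/
def mom1 (u : List ℕ) : ℕ := ∑ i : Fin u.length, (i : ℕ) * (u.get i - 1)

/-- the words of length `r` and weight `m` in positive integers -/
def Word (r m : ℕ) (u : List ℕ) : Prop := u.length = r ∧ u.sum = m ∧ ∀ x ∈ u, 1 ≤ x

/-- first parts: positive integers, the first at least two -/
def First (p : List ℕ) : Prop := (∀ x ∈ p, 1 ≤ x) ∧ ∃ x t, p = x :: t ∧ 2 ≤ x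

lemma mzv_eq {l : List ℕ} (hl : Pool.Agent.H447R2.MZ.Adm l) : mzv l = Pool.Agent.H447R2.MZ.val l := by
  have h1 := Pool.Agent.H447R2.MZ.hasSum_val l.length l.get (by rw [List.ofFn_get]; exact hl)
  rw [List.ofFn_get] at h1
  exact h1.tsum_eq

lemma mom_cons (s : ℕ) (y : List ℕ) : mom (s :: y) = mom y + y.sum := by
  have h1 : ∑ i : Fin y.length, y.get i = y.sum := by
    rw [← List.sum_ofFn, List.ofFn_get]
  rw [mom, mom]
  have h2 : ∑ i : Fin (s :: y).length, (i : ℕ) * (s :: y).get i =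
      ∑ i : Fin (y.length + 1), (i : ℕ) * (s :: y).get i := rfl
  rw [h2, Fin.sum_univ_succ]
  simp only [Fin.val_zero, zero_mul, zero_add, Fin.val_succ]
  rw [← h1, ← Finset.sum_add_distrib]
  refine Finset.sum_congr rfl fun i _ => ?_
  have : (s :: y).get i.succ = y.get i := rfl
  rw [this]
  ring

lemma mom1_cons (s : ℕ) (y : List ℕ) : mom1 (s :: y) = mom1 y + ex y := by
  have h1 : ∑ i : Fin y.length, (y.get i - 1) = ex y := by
    have h0 : ex y = (List.ofFn fun i : Fin y.length => y.get i - 1).sum := by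
      rw [ex]
      congr 1
      conv_lhs => rw [← List.ofFn_get y]
      rw [List.map_ofFn]
      rfl
    rw [h0, List.sum_ofFn]
  rw [mom1, mom1]
  have h2 : ∑ i : Fin (s :: y).length, (i : ℕ) * ((s :: y).get i - 1) =
      ∑ i : Fin (y.length + 1), (i : ℕ) * ((s :: y).get i - 1) := rfl
  rw [h2, Fin.sum_univ_succ]
  simp only [Fin.val_zero, zero_mul, zero_add, Fin.val_succ]
  rw [← h1, ← Finset.sum_add_distrib]
  refine Finset.sum_congr rfl fun i _ => ?_
  have : (s :: y).get i.succ = y.get i := rfl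
  rw [this]
  ring

lemma mom1_eq (u : List ℕ) : mom1 u = nn u := by
  induction u with
  | nil => rfl
  | cons s y ih => rw [mom1_cons, nn_cons, ih]

lemma sum_eq (y : List ℕ) (h : ∀ x ∈ y, 1 ≤ x) : y.sum = ex y + y.length := by
  induction y with
  | nil => rfl
  | cons s y ih =>
    have h1 := ih fun x hx => h x (List.mem_cons_of_mem _ hx)
    have h2 := h s List.mem_cons_self
    rw [List.sum_cons, ex_cons, List.length_cons, h1]
    omega

lemma mom_eq (u : List ℕ) : (∀ x ∈ u, 1 ≤ x) → mom u = nn u + mom (List.replicate u.length 1) := by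
  induction u with
  | nil => intro _; rfl
  | cons s y ih =>
    intro h
    have h1 : ∀ x ∈ y, 1 ≤ x := fun x hx => h x (List.mem_cons_of_mem _ hx)
    rw [List.length_cons, List.replicate_succ, mom_cons, mom_cons, nn_cons, ih h1, sum_eq y h1, List.sum_replicate]
    simp only [smul_eq_mul, mul_one]
    omega

lemma rep_pos (k : ℕ) : ∀ x ∈ List.replicate k 1, 1 ≤ x := fun x hx => by
  rw [List.eq_of_mem_replicate hx]

lemma ex_rep (k : ℕ) : ex (List.replicate k 1) = 0 := by simp [ex]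

lemma nn_rep (k : ℕ) : nn (List.replicate k 1) = 0 := by
  induction k with
  | zero => rfl
  | succ k ih => rw [List.replicate_succ, nn_cons, ih, ex_rep]

lemma adm_first {p : List ℕ} (h : First p) : Pool.Agent.H447R2.MZ.Adm p := by
  obtain ⟨h1, x, t, h2, h3⟩ := h
  refine ⟨h1, fun y t' h4 => ?_⟩
  rw [h2] at h4
  rw [← (List.cons.inj h4).1]
  exact h3

lemma first_ne {p : List ℕ} (h : First p) : p ≠ [] := by
  obtain ⟨_, x, t, h2, _⟩ := h
  rw [h2]
  simp

lemma adm_pwq {p : List ℕ} (h : First p) {w q : List ℕ} (hw : ∀ x ∈ w, 1 ≤ x) (hq : ∀ x ∈ q, 1 ≤ x) :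
    Pool.Agent.H447R2.MZ.Adm (p ++ w ++ q) := by
  rw [List.append_assoc]
  refine adm_app (adm_first h) (first_ne h) fun x hx => ?_
  rcases List.mem_append.1 hx with h | h
  · exact hw x h
  · exact hq x h

lemma word_base {r m s : ℕ} {y : List ℕ} (h : Word r m (s :: y)) : base s y = u0 r m ∧ 1 ≤ s ∧ (∀ x ∈ y, 1 ≤ x) := by
  obtain ⟨h1, h2, h3⟩ := h
  have hy : ∀ x ∈ y, 1 ≤ x := fun x hx => h3 x (List.mem_cons_of_mem _ hx)
  have hs := h3 s List.mem_cons_self
  rw [List.sum_cons, sum_eq y hy] at h2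
  rw [List.length_cons] at h1
  refine ⟨?_, hs, hy⟩
  rw [base, u0, show y.length = r - 1 by omega, show s + ex y = m - r + 1 by omega]

lemma u1_word {r m : ℕ} (hr : 2 ≤ r) (hm : r < m) : Word r m (u1 r m) := by
  refine ⟨?_, ?_, ?_⟩
  · rw [u1, List.length_cons, List.length_cons, List.length_replicate]; omega
  · rw [u1, List.sum_cons, List.sum_cons, List.sum_replicate]; simp only [smul_eq_mul, mul_one]; omega
  · intro x hx
    rw [u1] at hx
    rcases List.mem_cons.1 hx with h | h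
    · omega
    · rcases List.mem_cons.1 h with h | h
      · omega
      · exact rep_pos _ x h

lemma u0_pos (r m : ℕ) : ∀ x ∈ u0 r m, 1 ≤ x := by
  intro x hx
  rw [u0] at hx
  rcases List.mem_cons.1 hx with h | h
  · omega
  · exact rep_pos _ x h

lemma nn_u1 {r m : ℕ} : nn (u1 r m) = 1 := by
  rw [u1, nn_cons, nn_cons, ex_cons, nn_rep, ex_rep]

lemma finite_words (r m : ℕ) : {u : List ℕ | Word r m u}.Finite := by
  refine Set.Finite.subset (Set.finite_range fun f : Fin r → Fin (m + 1) => List.ofFn fun i => (f i : ℕ)) ?_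
  rintro u ⟨h1, h2, _⟩
  subst h1
  refine ⟨fun i => ⟨u.get i, ?_⟩, ?_⟩
  · have h3 : u.get i ≤ u.sum := List.le_sum_of_mem (List.get_mem u i)
    omega
  · simp

lemma pow_bound {E : ℝ} (h1 : 1 ≤ E) (h4 : E ≤ 4) (M : ℕ) : E ^ M - 1 ≤ M * 4 ^ M * (E - 1) := by
  induction M with
  | zero => simp
  | succ M ih =>
    have h5 : 0 ≤ (M : ℝ) * 4 ^ M * (E - 1) := by
      have : 0 ≤ E - 1 := by linarith
      positivity
    have h6 : (1 : ℝ) ≤ 4 ^ (M + 1) := one_le_pow₀ (by norm_num)
    have h7 : 0 ≤ E - 1 := by linarith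
    calc E ^ (M + 1) - 1 = E * (E ^ M - 1) + (E - 1) := by ring
      _ ≤ E * (M * 4 ^ M * (E - 1)) + (E - 1) := by
        have := mul_le_mul_of_nonneg_left ih (by linarith : 0 ≤ E)
        linarith
      _ ≤ 4 * (M * 4 ^ M * (E - 1)) + 4 ^ (M + 1) * (E - 1) := by
        refine add_le_add (mul_le_mul_of_nonneg_right h4 h5) ?_
        exact le_mul_of_one_le_left h7 h6
      _ = _ := by push_cast; ring

lemma abs_of_within {X Y c : ℝ} (hc : 1 ≤ c) (hY : 0 ≤ Y) (h1 : X ≤ c * Y) (h2 : Y ≤ c * X) :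
    |X - Y| ≤ (c - 1) * Y := by
  rw [abs_le]
  constructor
  · by_cases h : Y ≤ X
    · have : 0 ≤ (c - 1) * Y := mul_nonneg (by linarith) hY
      linarith
    · have h3 : (c - 1) * X ≤ (c - 1) * Y := mul_le_mul_of_nonneg_left (not_le.1 h).le (by linarith)
      linarith
  · linarith

/-- the expansion, in terms of `ex` and `nn` -/
lemma expansion (r m : ℕ) (hr : 2 ≤ r) (hm : r < m) : ∃ K : ℝ, 0 ≤ K ∧ ∀ p q : List ℕ, First p → (∀ x ∈ q, 1 ≤ x) →
    3 ≤ ex p → 1 ≤ q.length →
      0 < Z p (u0 r m) q ∧ 0 < Z p (u1 r m) q - Z p (u0 r m) q ∧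
      Z p (u1 r m) q - Z p (u0 r m) q ≤ K * (1 / (ex p : ℝ) + 1 / (q.length : ℝ)) * Z p (u0 r m) q ∧
      ∀ u, Word r m u → |Z p u q - Z p (u0 r m) q - nn u * (Z p (u1 r m) q - Z p (u0 r m) q)| ≤
        K * (1 / (ex p : ℝ) + 1 / (q.length : ℝ)) * (Z p (u1 r m) q - Z p (u0 r m) q) := by
  classical
  have hw1 := u1_word hr hm
  obtain ⟨hb1, hs1, hy1⟩ := word_base (s := m - r) (y := 2 :: List.replicate (r - 2) 1) hw1
  -- the constants of the words
  have hM : ∀ u : List ℕ, ∃ M : ℕ, Word r m u → ∀ {p q : List ℕ} {E : ℝ}, PQ p q E → First p → (∀ x ∈ q, 1 ≤ x) →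
      0 < Z p (u1 r m) q - Z p (u0 r m) q ∧
      Z p u q - Z p (u0 r m) q ≤ E ^ M * (nn u * (Z p (u1 r m) q - Z p (u0 r m) q)) ∧
      nn u * (Z p (u1 r m) q - Z p (u0 r m) q) ≤ E ^ M * (Z p u q - Z p (u0 r m) q) := by
    intro u
    by_cases hu : Word r m u
    · obtain ⟨s, y, rfl⟩ : ∃ s y, u = s :: y := by
        cases u with
        | nil =>
          have := hu.1
          rw [List.length_nil] at this
          omega
        | cons s y => exact ⟨s, y, rfl⟩
      obtain ⟨hb, hs, hy⟩ := word_base hu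
      have hlen : (2 :: List.replicate (r - 2) 1).length = y.length := by
        have := hu.1
        rw [List.length_cons] at this
        rw [List.length_cons, List.length_replicate]
        omega
      have hex : m - r + ex (2 :: List.replicate (r - 2) 1) = s + ex y := by
        have h1 := hu.2.1
        rw [List.sum_cons, sum_eq y hy] at h1
        have h2 := hu.1
        rw [List.length_cons] at h2
        rw [ex_cons, ex_rep]
        omega
      obtain ⟨M, h⟩ := diff_val star_thm hs hy hs1 hy1 hlen hex nn_u1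
      refine ⟨M, fun _ {p q E} hPQ hp hq => ?_⟩
      have a1 := adm_pwq hp hu.2.2 hq
      have a2 := adm_pwq hp (u0_pos r m) hq
      have a3 := adm_pwq hp hw1.2.2 hq
      have h1 := h hPQ a1 (by rw [hb]; exact a2) a3
      rw [hb] at h1
      rw [Z, Z, Z, mzv_eq a1, mzv_eq a2, mzv_eq a3]
      exact h1
    · exact ⟨0, fun h => absurd h hu⟩
  choose M hM using hM
  set Uall : Finset (List ℕ) := (finite_words r m).toFinset with hUall
  refine ⟨∑ u ∈ Uall, (nn u : ℝ) * (M u * 4 ^ M u * 3) + 3, ?_, ?_⟩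
  · have : 0 ≤ ∑ u ∈ Uall, (nn u : ℝ) * (M u * 4 ^ M u * 3) := Finset.sum_nonneg fun u _ => by positivity
    linarith
  intro p q hp hq ha hb
  have har : (3 : ℝ) ≤ ex p := by exact_mod_cast ha
  have hbr : (1 : ℝ) ≤ q.length := by exact_mod_cast hb
  set E : ℝ := 1 + (2 / ((ex p : ℝ) - 1) + 2 / (q.length : ℝ)) with hE
  have hPQ : PQ p q E := ⟨hp.1, hb, ha, le_rfl⟩
  have hE1 := hPQ.set1.one_le
  set x : ℝ := 1 / (ex p : ℝ) + 1 / (q.length : ℝ) with hx
  have hx0 : 0 ≤ x := by positivity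
  have hEx : E - 1 ≤ 3 * x := by
    have h1 : 2 / ((ex p : ℝ) - 1) ≤ 3 * (1 / (ex p : ℝ)) := by
      rw [mul_one_div, div_le_div_iff₀ (by linarith) (by linarith)]
      linarith
    have h2 : 2 / (q.length : ℝ) ≤ 3 * (1 / (q.length : ℝ)) := by
      rw [mul_one_div]
      exact div_le_div_of_nonneg_right (by norm_num) (by linarith)
    rw [hE, hx]
    linarith
  have hE4 : E ≤ 4 := by
    have h1 : 2 / ((ex p : ℝ) - 1) ≤ 1 := by
      rw [div_le_one (by linarith)]
      linarith
    have h2 : 2 / (q.length : ℝ) ≤ 2 := by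
      rw [div_le_iff₀ (by linarith)]
      linarith
    rw [hE]
    linarith
  have h0pos : 0 < Z p (u0 r m) q := by
    have a2 := adm_pwq hp (u0_pos r m) hq
    rw [Z, mzv_eq a2]
    exact lt_of_lt_of_le (Pool.Agent.K9h52.CS.H_pos _) (Pool.Agent.H447R2.MZ.H_le_val _ a2 _)
  obtain ⟨hΔ, _, _⟩ := hM (u1 r m) hw1 hPQ hp hq
  set Δ : ℝ := Z p (u1 r m) q - Z p (u0 r m) q with hΔdef
  have hS0 : 0 ≤ ∑ u ∈ Uall, (nn u : ℝ) * (M u * 4 ^ M u * 3) := Finset.sum_nonneg fun u _ => by positivity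
  refine ⟨h0pos, hΔ, ?_, fun u hu => ?_⟩
  · have a2 := adm_pwq hp (u0_pos r m) hq
    have a3 := adm_pwq hp hw1.2.2 hq
    have h1 := (comp_val (s := m - r) (y := 2 :: List.replicate (r - 2) 1) hs1 hy1 hPQ a3
      (by rw [hb1]; exact a2)).1
    rw [hb1, show (m - r) :: 2 :: List.replicate (r - 2) 1 = u1 r m from rfl, nn_u1, pow_one, ← mzv_eq a3,
      ← mzv_eq a2] at h1
    have h2 : Z p (u1 r m) q ≤ E * Z p (u0 r m) q := h1
    have h3 : Δ ≤ (E - 1) * Z p (u0 r m) q := by rw [hΔdef]; linarith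
    refine h3.trans (mul_le_mul_of_nonneg_right ?_ h0pos.le)
    refine hEx.trans (mul_le_mul_of_nonneg_right ?_ hx0)
    linarith
  · obtain ⟨_, h1, h2⟩ := hM u hu hPQ hp hq
    have h3 := abs_of_within (one_le_pow₀ hE1) (by positivity) h1 h2
    refine h3.trans ?_
    rw [← mul_assoc]
    refine mul_le_mul_of_nonneg_right ?_ hΔ.le
    have h4 := pow_bound hE1 hE4 (M u)
    have huU : u ∈ Uall := by rw [hUall, Set.Finite.mem_toFinset]; exact hu
    have h5 : (nn u : ℝ) * (M u * 4 ^ M u * 3) ≤ ∑ u ∈ Uall, (nn u : ℝ) * (M u * 4 ^ M u * 3) :=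
      Finset.single_le_sum (f := fun u => (nn u : ℝ) * (M u * 4 ^ M u * 3)) (fun v _ => by positivity) huU
    calc (E ^ M u - 1) * nn u ≤ (M u * 4 ^ M u * (E - 1)) * nn u := mul_le_mul_of_nonneg_right h4 (Nat.cast_nonneg _)
      _ ≤ (M u * 4 ^ M u * (3 * x)) * nn u := by
        refine mul_le_mul_of_nonneg_right (mul_le_mul_of_nonneg_left hEx (by positivity)) (Nat.cast_nonneg _)
      _ = ((nn u : ℝ) * (M u * 4 ^ M u * 3)) * x := by ring
      _ ≤ (∑ u ∈ Uall, (nn u : ℝ) * (M u * 4 ^ M u * 3) + 3) * x := by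
        refine mul_le_mul_of_nonneg_right (by linarith) hx0

/-- **Theorem.** Let `r ≥ 2` and `m > r`. For words `p` in positive integers with first letter at least two and words
`q` in positive integers let `a` be the weight of `p` minus the length of `p` and `b` the length of `q`, and
`Z_0 = ζ(p u_0 q)`, `Δ = ζ(p u_1 q) - ζ(p u_0 q)`.
(1) There is `K` such that for all `p`, `q` with `a ≥ 3`, `b ≥ 1`: `Z_0 > 0`, `0 < Δ ≤ K (1 / a + 1 / b) Z_0` and for all
words `u` of length `r` and weight `m`: `|ζ(p u q) - Z_0 - (∑ i (u_i - 1)) Δ| ≤ K (1 / a + 1 / b) Δ`.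
(2) There is `κ > 0` such that for all `p`, `q`, all finite sets `U` of words of length `r` and weight `m` and all
integers `c_u`, `u ∈ U`, of absolute value at most `κ min(a, b)`: if `∑ c_u ≠ 0`, then
`|∑ c_u ζ(p u q)| ≥ Z_0 / 2 > 0`; if `∑ c_u = 0` and `∑ c_u ∑ i u_i ≠ 0`, then `|∑ c_u ζ(p u q)| ≥ Δ / 2 > 0`. -/
theorem result (r m : ℕ) (hr : 2 ≤ r) (hm : r < m) :
    (∃ K : ℝ, 0 ≤ K ∧ ∀ p q : List ℕ, First p → (∀ x ∈ q, 1 ≤ x) → ∀ a b : ℕ, a = p.sum - p.length → b = q.length →
      3 ≤ a → 1 ≤ b →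
        0 < Z p (u0 r m) q ∧ 0 < Z p (u1 r m) q - Z p (u0 r m) q ∧
        Z p (u1 r m) q - Z p (u0 r m) q ≤ K * (1 / (a : ℝ) + 1 / (b : ℝ)) * Z p (u0 r m) q ∧
        ∀ u, Word r m u → |Z p u q - Z p (u0 r m) q - mom1 u * (Z p (u1 r m) q - Z p (u0 r m) q)| ≤
          K * (1 / (a : ℝ) + 1 / (b : ℝ)) * (Z p (u1 r m) q - Z p (u0 r m) q)) ∧
    (∃ κ : ℝ, 0 < κ ∧ ∀ p q : List ℕ, First p → (∀ x ∈ q, 1 ≤ x) → ∀ a b : ℕ, a = p.sum - p.length → b = q.length →
      ∀ U : Finset (List ℕ), (∀ u ∈ U, Word r m u) → ∀ c : List ℕ → ℤ,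
        (∀ u ∈ U, |(c u : ℝ)| ≤ κ * ((min a b : ℕ) : ℝ)) →
        ((∑ u ∈ U, c u ≠ 0) → 0 < Z p (u0 r m) q ∧ Z p (u0 r m) q / 2 ≤ |∑ u ∈ U, (c u : ℝ) * Z p u q|) ∧
        ((∑ u ∈ U, c u = 0) → (∑ u ∈ U, c u * mom u ≠ 0) →
          0 < Z p (u1 r m) q - Z p (u0 r m) q ∧
            (Z p (u1 r m) q - Z p (u0 r m) q) / 2 ≤ |∑ u ∈ U, (c u : ℝ) * Z p u q|)) := by
  classical
  obtain ⟨K, hK, hexp⟩ := expansion r m hr hm
  have hexp' : ∀ p : List ℕ, First p → p.sum - p.length = ex p := fun p hp => by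
    rw [sum_eq p hp.1]; omega
  constructor
  · refine ⟨K, hK, fun p q hp hq a b ha hb ha3 hb1 => ?_⟩
    rw [hexp' p hp] at ha
    subst ha hb
    obtain ⟨h1, h2, h3, h4⟩ := hexp p q hp hq ha3 hb1
    exact ⟨h1, h2, h3, fun u hu => by rw [mom1_eq]; exact h4 u hu⟩
  · obtain ⟨κ, hκ, hfin⟩ := fin_thm (List ℕ) (finite_words r m).toFinset nn K hK
    refine ⟨min κ (1 / 3), lt_min hκ (by norm_num), fun p q hp hq a b ha hb U hU c hc => ?_⟩
    rw [hexp' p hp] at ha
    have hUsub : U ⊆ (finite_words r m).toFinset := fun u hu => by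
      rw [Set.Finite.mem_toFinset]; exact hU u hu
    have hmin0 : (0 : ℝ) ≤ ((min a b : ℕ) : ℝ) := Nat.cast_nonneg _
    set c' : List ℕ → ℤ := fun u => if u ∈ U then c u else 0 with hc'
    have hc'κ : ∀ u ∈ (finite_words r m).toFinset, |(c' u : ℝ)| ≤ κ * ((min a b : ℕ) : ℝ) := by
      intro u _
      by_cases hu : u ∈ U
      · simp only [hc', hu, if_true]
        exact (hc u hu).trans (mul_le_mul_of_nonneg_right (min_le_left _ _) hmin0)
      · simp only [hc', hu, if_false, Int.cast_zero, abs_zero]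
        positivity
    have hs1 : ∑ u ∈ (finite_words r m).toFinset, c' u = ∑ u ∈ U, c u := by
      rw [← Finset.sum_subset hUsub (f := c')]
      · exact Finset.sum_congr rfl fun u hu => by simp [hc', hu]
      · intro u _ hu; simp [hc', hu]
    have hs2 : ∑ u ∈ (finite_words r m).toFinset, c' u * (nn u : ℤ) = ∑ u ∈ U, c u * (nn u : ℤ) := by
      rw [← Finset.sum_subset hUsub (f := fun u => c' u * (nn u : ℤ))]
      · exact Finset.sum_congr rfl fun u hu => by simp [hc', hu]
      · intro u _ hu; simp [hc', hu]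
    have hs3 : ∑ u ∈ (finite_words r m).toFinset, (c' u : ℝ) * Z p u q = ∑ u ∈ U, (c u : ℝ) * Z p u q := by
      rw [← Finset.sum_subset hUsub (f := fun u => (c' u : ℝ) * Z p u q)]
      · exact Finset.sum_congr rfl fun u hu => by simp [hc', hu]
      · intro u _ hu; simp [hc', hu]
    have hmom : (∑ u ∈ U, c u = 0) → ∑ u ∈ U, c u * (mom u : ℤ) = ∑ u ∈ U, c u * (nn u : ℤ) := by
      intro h0
      have h1 : ∑ u ∈ U, c u * (mom u : ℤ) =
          ∑ u ∈ U, (c u * (nn u : ℤ) + c u * (mom (List.replicate r 1) : ℤ)) := by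
        refine Finset.sum_congr rfl fun u hu => ?_
        rw [mom_eq u (hU u hu).2.2, (hU u hu).1]
        push_cast
        ring
      rw [h1, Finset.sum_add_distrib, ← Finset.sum_mul, h0, zero_mul, add_zero]
    have hbig : (∃ u ∈ U, c u ≠ 0) → 3 ≤ a ∧ 1 ≤ b := by
      rintro ⟨u, hu, hcu⟩
      have h1 : (1 : ℝ) ≤ |(c u : ℝ)| := by
        rw [← Int.cast_abs]
        exact_mod_cast Int.one_le_abs hcu
      have h2 := hc u hu
      have h3 : min κ (1 / 3) * ((min a b : ℕ) : ℝ) ≤ 1 / 3 * ((min a b : ℕ) : ℝ) :=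
        mul_le_mul_of_nonneg_right (min_le_right _ _) hmin0
      have h4 : (3 : ℝ) ≤ ((min a b : ℕ) : ℝ) := by linarith
      have h5 : 3 ≤ min a b := by exact_mod_cast h4
      omega
    have hmain : 3 ≤ a → 1 ≤ b → _ := fun ha3 hb1 => by
      subst ha hb
      obtain ⟨h1, h2, h3, h4⟩ := hexp p q hp hq ha3 hb1
      exact hfin (ex p) q.length (fun u => Z p u q) (Z p (u0 r m) q) (Z p (u1 r m) q - Z p (u0 r m) q)
        (by omega) hb1 h2 h1 h3 (fun u hu => h4 u (by rw [Set.Finite.mem_toFinset] at hu; exact hu)) c' hc'κ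
    constructor
    · intro h0
      obtain ⟨ha3, hb1⟩ := hbig (by
        by_contra hcon
        push Not at hcon
        exact h0 (Finset.sum_eq_zero hcon))
      have h1 := (hmain ha3 hb1).1 (by rw [hs1]; exact h0)
      simp only [hs3] at h1
      subst ha hb
      exact ⟨(hexp p q hp hq ha3 hb1).1, h1⟩
    · intro h0 hne
      obtain ⟨ha3, hb1⟩ := hbig (by
        by_contra hcon
        push Not at hcon
        exact hne (Finset.sum_eq_zero fun u hu => by rw [hcon u hu, zero_mul]))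
      have h1 := (hmain ha3 hb1).2 (by rw [hs1]; exact h0) (by rw [hs2, ← hmom h0]; exact hne)
      simp only [hs3] at h1
      subst ha hb
      exact ⟨(hexp p q hp hq ha3 hb1).2.1, h1⟩

end Pool.Agent.Results.MP_c2d7b4_nt.MiddlePart
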