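import Mathlib
import Pool.Agent.K9h92.MP.E5

/-!
# MP_c2d7b4_nt: multiple zeta values `ζ(p 2^x 3 2^y q)` with long common ends `p`, `q` have no relations of small height

Fix `r` and `Λ` and consider the numbers `ζ(p 2^x 3 2^(r-1-x) q)`, `x = 0, ..., r - 1`: the letters of `p` belong to the
largest summation variables, the letters of `q` to the smallest ones, and only the place of one letter `3` among letters
`2` in the middle part varies. If `p` and `q` are words in `2`, `3`, these are Hoffman elements of one weight, and
Hoffman's conjecture says that they satisfy no linear relation.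

Theorem: if `length q ≤ Λ (weight p - length p)`, they satisfy no linear relation with integer coefficients, not all
zero, of absolute value at most `κ length q`, where `κ > 0` depends only on `r` and `Λ`. So the relations which are left
open by the first order expansion in `MiddlePart` do not exist in this family.

The proof is elementary. With `J = Io Mo^2` (append a letter `2`; `Mo` divides by the variable, `Io` is the sum over a
larger variable) the `k`-th finite difference in `x` of the truncated sums is given by the `k`-th iterated commutator of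
`Io Mo^3` with `J`. There is an exact relation `Mo Io = Io Mo + Mo Io Mo + Mo Io Io Mo`, and words in `Io`, `Mo` with the
same letters agree up to a factor `1 + O(1 / a + 1 / b)` (`a = weight p - length p`, `b = length q`). The leading part of
the iterated commutator has nonnegative coefficients, since the derivation `D(Mo^m Io^i) = (m - 2 i) Mo^(m+3)
(Io^(i+1) + Io^(i+2))` only meets monomials with `m ≥ 2 i`; and one more `Io` costs at most a constant if `b ≤ Λ a`. So
every finite difference is positive, and each one is at most a constant times `1 / b` times the preceding one.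
-/

set_option autoImplicit false

namespace Pool.Agent.Results.MP_c2d7b4_nt.OneThreeMiddle

open Pool.Agent.K9h92.MP2 Pool.Agent.K9h92.MQE

/-- the multiple zeta value of the list `l`, the first entry belongs to the largest summation variable, in the words of
`S18393` -/
noncomputable def mzv (l : List ℕ) : ℝ :=
  ∑' m : {m : Fin l.length → ℕ // StrictAnti m ∧ ∀ i, 0 < m i}, ∏ i, ((m.1 i : ℝ) ^ (l.get i))⁻¹

/-- the word `2^x 3 2^(r-1-x)` of length `r`, for `x < r` -/
def middle (r x : ℕ) : List ℕ := List.replicate x 2 ++ 3 :: List.replicate (r - 1 - x) 2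

/-- first parts: positive integers, the first at least two -/
def First (p : List ℕ) : Prop := (∀ x ∈ p, 1 ≤ x) ∧ ∃ x t, p = x :: t ∧ 2 ≤ x

lemma mzv_eq {l : List ℕ} (hl : Pool.Agent.H447R2.MZ.Adm l) : mzv l = Pool.Agent.H447R2.MZ.val l := by
  have h1 := Pool.Agent.H447R2.MZ.hasSum_val l.length l.get (by rw [List.ofFn_get]; exact hl)
  rw [List.ofFn_get] at h1
  exact h1.tsum_eq

lemma adm_first {p : List ℕ} (h : First p) : Pool.Agent.H447R2.MZ.Adm p := by
  obtain ⟨h1, x, t, h2, h3⟩ := h
  refine ⟨h1, fun y t' h4 => ?_⟩
  rw [h2] at h4
  rw [← (List.cons.inj h4).1]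
  exact h3

lemma first_ne {p : List ℕ} (h : First p) : p ≠ [] := by
  obtain ⟨_, x, t, h2, _⟩ := h
  rw [h2]
  simp

lemma sum_eq (y : List ℕ) (h : ∀ x ∈ y, 1 ≤ x) : y.sum = ex y + y.length := by
  induction y with
  | nil => rfl
  | cons s y ih =>
    have h1 := ih fun x hx => h x (List.mem_cons_of_mem _ hx)
    have h2 := h s List.mem_cons_self
    rw [List.sum_cons, ex_cons, List.length_cons, h1]
    omega

lemma adm_mid {p q : List ℕ} (h : First p) (hq : ∀ x ∈ q, 1 ≤ x) (r x : ℕ) :
    Pool.Agent.H447R2.MZ.Adm (p ++ middle r x ++ q) := by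
  rw [List.append_assoc]
  refine adm_app (adm_first h) (first_ne h) fun y hy => ?_
  rcases List.mem_append.1 hy with h1 | h1
  · rw [middle] at h1
    rcases List.mem_append.1 h1 with h2 | h2
    · rw [List.eq_of_mem_replicate h2]; norm_num
    · rcases List.mem_cons.1 h2 with h3 | h3
      · omega
      · rw [List.eq_of_mem_replicate h3]; norm_num
  · exact hq y h1

/-- **Theorem.** For all natural numbers `r` and `Λ` there is `κ > 0` such that for all words `p` in positive integers
with first letter at least two and all words `q` in positive integers with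
`length q ≤ Λ (weight p - length p)` the numbers `ζ(p 2^x 3 2^(r-1-x) q)`, `x = 0, ..., r - 1`, satisfy no linear
relation with integer coefficients, not all zero, of absolute value at most `κ length q`. -/
theorem result (Λ r : ℕ) : ∃ κ : ℝ, 0 < κ ∧ ∀ p q : List ℕ, First p → (∀ x ∈ q, 1 ≤ x) →
    q.length ≤ Λ * (p.sum - p.length) → ∀ c : ℕ → ℤ, (∀ x < r, |(c x : ℝ)| ≤ κ * q.length) →
      (∃ x < r, c x ≠ 0) → ∑ x ∈ Finset.range r, (c x : ℝ) * mzv (p ++ middle r x ++ q) ≠ 0 := by
  obtain ⟨κ, hκ, h⟩ := one_three Λ r
  refine ⟨κ, hκ, fun p q hp hq hlen c hc hne => ?_⟩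
  have hex : p.sum - p.length = ex p := by rw [sum_eq p hp.1]; omega
  rw [hex] at hlen
  have h1 := h p q hp.1 hq (fun x _ => adm_mid hp hq r x) hlen c hc hne
  have h2 : ∑ x ∈ Finset.range r, (c x : ℝ) * mzv (p ++ middle r x ++ q) =
      ∑ x ∈ Finset.range r, (c x : ℝ) * Pool.Agent.H447R2.MZ.val (p ++ mid r x ++ q) :=
    Finset.sum_congr rfl fun x _ => by rw [mzv_eq (adm_mid hp hq r x)]; rfl
  rw [h2]
  exact h1

end Pool.Agent.Results.MP_c2d7b4_nt.OneThreeMiddle
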