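import Mathlib
import Pool.Agent.K9h52.CS.Two2

/-!
# MP_c2d7b4_nt: multiple zeta values `ζ(u p v)` with a long common middle part: no relations with product coefficients

Let `U`, `V` be finite sets of words in positive integers, the words of `U` empty or with first letter at least two (the
first letter belongs to the largest summation variable). For a long word `p` with letters at least two consider the
matrix `Z_p = (ζ(u p v))`, `u ∈ U`, `v ∈ V`. If `U`, `V` and `p` consist of words in `2`, `3` the entries are Hoffman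
elements, and Hoffman's conjecture says that all linear combinations of the entries with rational coefficients, not all
zero, are different from zero. Here this is shown for the combinations with coefficient matrix of rank one,
`∑ a_u b_v ζ(u p v)`.

(1) `|∑ a_u b_v ζ(u p v)| ≥ κ ζ(p_1 + K, p_2, ..., p_m, 2, ..., 2) > 0` for all integer vectors `a ≠ 0`, `b ≠ 0` with
entries of absolute value at most `κ · length p`, where `κ > 0`, `K` and the number `M` of the letters `2` depend only on
`U` and `V`.
(2) For all real vectors `a ≠ 0`, `b ≠ 0` there is `L` such that `∑ a_u b_v ζ(u p v) ≠ 0` for all `p` of length at least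
`L`.

For coefficient matrices of rank two this is false without a restriction to the letters `2`, `3`: by duality
`ζ(3, 2, ..., 2) = ζ(2, ..., 2, 2, 1)`.

The proof is elementary. `ζ(u p v) = ∑_{j, i} T_u(j) K_p(j, i) H_v(i)`; the combination of the tails `T_u(j)` is
comparable with one negative power of `j` for all `j` larger than a constant times the height (expansions in `1 / j`
with rational coefficients, independence modulo rapidly decreasing functions), so that the sum over `j` is comparable
with a multiple harmonic tail; this decreases in `i` by factors `length p` (Newton's inequality for words, starting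
library), so that the first nonzero value of the combination of the harmonic sums `H_v(i)` decides.
-/

set_option autoImplicit false

namespace Pool.Agent.Results.MP_c2d7b4_nt.TwoSided

/-- the multiple zeta value of the list `l`, the first entry belongs to the largest summation variable, in the words of
`S18393` -/
noncomputable def mzv (l : List ℕ) : ℝ :=
  ∑' m : {m : Fin l.length → ℕ // StrictAnti m ∧ ∀ i, 0 < m i}, ∏ i, ((m.1 i : ℝ) ^ (l.get i))⁻¹

/-- the list of natural numbers of a list of positive integers -/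
def toNat (u : List ℕ+) : List ℕ := List.map (fun x : ℕ+ => (x : ℕ)) u

lemma mzv_eq {l : List ℕ} (hl : Pool.Agent.H447R2.MZ.Adm l) : mzv l = Pool.Agent.H447R2.MZ.val l := by
  have h1 := Pool.Agent.H447R2.MZ.hasSum_val l.length l.get (by rw [List.ofFn_get]; exact hl)
  rw [List.ofFn_get] at h1
  exact h1.tsum_eq

lemma adm_of (u : List ℕ+) (h : ∀ a v, u = a :: v → 2 ≤ (a : ℕ)) : Pool.Agent.H447R2.MZ.Adm (toNat u) := by
  refine ⟨fun x hx => ?_, fun x t hx => ?_⟩
  · rw [toNat, List.mem_map] at hx
    obtain ⟨y, _, rfl⟩ := hx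
    exact y.pos
  · cases u with
    | nil => exact absurd hx (by simp [toNat])
    | cons a v =>
      have h1 : toNat (a :: v) = (a : ℕ) :: toNat v := rfl
      rw [h1] at hx
      rw [← (List.cons.inj hx).1]
      exact h a v rfl

lemma app_eq (u v : List ℕ) (t s : ℕ) (q : List ℕ) :
    u ++ (t :: (q ++ [s])) ++ v = (u ++ t :: q) ++ s :: v := by simp

lemma adm_two (t : ℕ) (r : List ℕ) (ht : 2 ≤ t) (hr : ∀ x ∈ r, 2 ≤ x) (K M : ℕ) :
    Pool.Agent.H447R2.MZ.Adm ((t + K) :: r ++ List.replicate M 2) := by
  refine ⟨fun x hx => ?_, fun x w h => ?_⟩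
  · simp only [List.cons_append, List.mem_cons, List.mem_append, List.mem_replicate] at hx
    rcases hx with rfl | h | h
    · omega
    · exact (by norm_num : 1 ≤ 2).trans (hr x h)
    · omega
  · rw [List.cons_append] at h
    rw [← (List.cons.inj h).1]
    omega

/-- **Theorem.** Let `U`, `V` be finite sets of words in positive integers, the words of `U` empty or with first letter at
least two. (1) There are `κ > 0`, `K`, `M` such that for all nonempty words `p = t r` with letters at least two and all
integers `a_u`, `b_v`, both vectors not zero, of absolute value at most `κ · length p`: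
`|∑ a_u b_v ζ(u p v)| ≥ κ ζ(t + K, r, 2, ..., 2) > 0`, with `M` letters `2`. (2) For all real `a_u`, `b_v`, both vectors not
zero, there is `L` such that `∑ a_u b_v ζ(u p v) ≠ 0` for all words `p` with letters at least two and length at least
`L`. -/
theorem result (U V : Finset (List ℕ+))
    (hU : ∀ u ∈ U, ∀ (x : ℕ+) (w : List ℕ+), u = x :: w → 2 ≤ (x : ℕ)) :
    (∃ κ : ℝ, 0 < κ ∧ ∃ K M : ℕ, ∀ (t : ℕ) (r : List ℕ), 2 ≤ t → (∀ x ∈ r, 2 ≤ x) →
      ∀ a b : List ℕ+ → ℤ, (∀ u ∈ U, |(a u : ℝ)| ≤ κ * (t :: r).length) →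
        (∀ v ∈ V, |(b v : ℝ)| ≤ κ * (t :: r).length) → (∃ u ∈ U, a u ≠ 0) → (∃ v ∈ V, b v ≠ 0) →
        0 < mzv ((t + K) :: r ++ List.replicate M 2) ∧
          κ * mzv ((t + K) :: r ++ List.replicate M 2) ≤
            |∑ u ∈ U, ∑ v ∈ V, (a u : ℝ) * (b v : ℝ) * mzv (toNat u ++ (t :: r) ++ toNat v)|) ∧
    (∀ a b : List ℕ+ → ℝ, (∃ u ∈ U, a u ≠ 0) → (∃ v ∈ V, b v ≠ 0) → ∃ L : ℕ, ∀ (t : ℕ) (r : List ℕ), 2 ≤ t →
      (∀ x ∈ r, 2 ≤ x) → L ≤ (t :: r).length →
        ∑ u ∈ U, ∑ v ∈ V, a u * b v * mzv (toNat u ++ (t :: r) ++ toNat v) ≠ 0) := by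
  have hU' : ∀ u ∈ U, Pool.Agent.H447R2.MZ.Adm (Pool.Agent.K9h52.CS.toN u) := fun u hu => adm_of u (hU u hu)
  have hsum : ∀ (a b : List ℕ+ → ℝ) (t s : ℕ) (q : List ℕ), 2 ≤ t → 2 ≤ s → (∀ x ∈ q, 2 ≤ x) →
      ∑ u ∈ U, ∑ v ∈ V, a u * b v * mzv (toNat u ++ (t :: (q ++ [s])) ++ toNat v) =
        ∑ u ∈ U, ∑ v ∈ V, a u * b v * Pool.Agent.H447R2.MZ.val
          ((Pool.Agent.K9h52.CS.toN u ++ t :: q) ++ s :: Pool.Agent.K9h52.CS.toN v) := by
    intro a b t s q ht hs hq
    refine Finset.sum_congr rfl fun u hu => Finset.sum_congr rfl fun v hv => ?_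
    have h1 : mzv ((toNat u ++ t :: q) ++ s :: toNat v) = Pool.Agent.H447R2.MZ.val ((toNat u ++ t :: q) ++ s :: toNat v) :=
      mzv_eq (Pool.Agent.K9h52.CS.adm_full (V := V) hU' ht hs hq u hu v hv)
    rw [app_eq, h1]
    rfl
  constructor
  · obtain ⟨κ, hκ, hκ4, K, M, h⟩ := Pool.Agent.K9h52.CS.two_int U V hU'
    refine ⟨κ / 2, by positivity, K, M, fun t r ht hr a b ha hb hane hbne => ?_⟩
    have hA := adm_two t r ht hr K M
    rw [mzv_eq hA]
    refine ⟨lt_of_lt_of_le (Pool.Agent.K9h52.CS.H_pos _) (Pool.Agent.H447R2.MZ.H_le_val _ hA _), ?_⟩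
    rcases List.eq_nil_or_concat r with rfl | ⟨q, s, rfl⟩
    · exfalso
      obtain ⟨u, hu, hau⟩ := hane
      have h1 := ha u hu
      rw [List.length_singleton, Nat.cast_one, mul_one] at h1
      have h2 : |(a u : ℝ)| < 1 := lt_of_le_of_lt h1 (by linarith)
      rw [← Int.cast_abs] at h2
      have h3 : |a u| < 1 := by exact_mod_cast h2
      exact hau (Int.abs_lt_one_iff.1 h3)
    · rw [List.concat_eq_append] at hr ha hb hA ⊢
      have hs : 2 ≤ s := hr s (by simp)
      have hq : ∀ x ∈ q, 2 ≤ x := fun x hx => hr x (by simp [hx])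
      have hlen : (((t :: (q ++ [s])).length : ℕ) : ℝ) = (q.length : ℝ) + 2 := by
        rw [List.length_cons, List.length_append, List.length_singleton]
        push_cast
        ring
      have hl : κ / 2 * ((q.length : ℝ) + 2) ≤ κ * ((q.length : ℝ) + 1) := by
        have : (0 : ℝ) ≤ q.length := Nat.cast_nonneg _
        nlinarith
      rw [hsum (fun u => (a u : ℝ)) (fun v => (b v : ℝ)) t s q ht hs hq]
      have h1 := h t s q ht hs hq a b (fun u hu => ((ha u hu).trans_eq (by rw [hlen])).trans hl)
        (fun v hv => ((hb v hv).trans_eq (by rw [hlen])).trans hl) hane hbne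
      have e1 : (t + K) :: (q ++ [s]) ++ List.replicate M 2 = ((t + K) :: q) ++ s :: List.replicate M 2 := by simp
      rw [e1]
      refine le_trans (mul_le_mul_of_nonneg_right (by linarith) ?_) h1
      rw [e1] at hA
      exact (Pool.Agent.H447R2.MZ.H_nonneg _ 0).trans (Pool.Agent.H447R2.MZ.H_le_val _ hA 0)
  · intro a b hane hbne
    obtain ⟨L, hL⟩ := Pool.Agent.K9h52.CS.two_real U V hU' a b hane hbne
    refine ⟨L + 2, fun t r ht hr hlen => ?_⟩
    rcases List.eq_nil_or_concat r with rfl | ⟨q, s, rfl⟩
    · rw [List.length_singleton] at hlen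
      omega
    · rw [List.concat_eq_append] at hr hlen ⊢
      have hs : 2 ≤ s := hr s (by simp)
      have hq : ∀ x ∈ q, 2 ≤ x := fun x hx => hr x (by simp [hx])
      rw [hsum a b t s q ht hs hq]
      refine hL t s q ht hs hq ?_
      rw [List.length_cons, List.length_append, List.length_singleton] at hlen
      omega

end Pool.Agent.Results.MP_c2d7b4_nt.TwoSided
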